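import Pool.Agent.Mg.Fe258b5.G241b42

open Pool.Agent.MP_c6cf52_lc Pool.Agent.MP_e258b5_gt

theorem Pool.Agent.Results.MP_e258b5_gt.GammaPNotGamma.result :
    ∃ (M : Type 1) (E : M → M → Prop), IsZFC E ∧ ∃ w X : M,
      IsOmega E w ∧ (∀ x, E x X → Sub E x w) ∧ ¬ IsFin E w X ∧
      (∀ p, IsUltra E w p → ∀ U, IsOmegaCov E w X U → ∃ V, Sub E V U ∧ IsPCov E w p X V) ∧
      ¬ ∀ U, IsOmegaCov E w X U → ∃ V, Sub E V U ∧ IsGammaCov E w X V :=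
  Pool.Agent.MP_e258b5_gt.main
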