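import Pool.Agent.MP_e258b5_gt.Z.Red

open Pool.Agent.MP_e258b5_gt.Z

theorem Pool.Agent.Results.MP_e258b5_gt.SmzReduction.result (X : Type) [TopologicalSpace X]
    [CompletelyRegularSpace X] (h : AllGammaP X) (hn : ¬ Gamma X) :
    ∃ φ : X → ℝ, Continuous φ ∧ AllGammaP (Set.range φ) ∧ ¬ Gamma (Set.range φ) ∧
      ¬ (Set.range φ).Countable ∧ ∀ k : ℕ, SMZ {z : Fin k → ℝ | ∀ l, z l ∈ Set.range φ} := by
  obtain ⟨φ, h1, h2⟩ := reduce h hn
  exact ⟨φ, h1, h.image (h1.subtype_mk fun x => ⟨x, rfl⟩) Set.rangeFactorization_surjective, h2,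
    fun h3 => h2 (@gamma_of_countable _ _ h3.to_subtype), smz h h1 (schB_of _)⟩
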