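import Pool.Agent.MP_e258b5_gt.Z.Smz

open Pool.Agent.MP_e258b5_gt.Z

theorem Pool.Agent.Results.MP_e258b5_gt.StrongNull.result (X Y : Type) [TopologicalSpace X]
    [PseudoMetricSpace Y] (h : AllGammaP X) (ψ : X → Y) (hψ : Continuous ψ)
    (hb : SchB (Set.range ψ)) (k : ℕ) : SMZ {z : Fin k → Y | ∀ l, z l ∈ Set.range ψ} :=
  smz h hψ hb k
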